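import Pool.Agent.L7h3.GL.Stm

set_option autoImplicit false

/-! Project GL, part GRD: transfinite choice of pairwise disjoint lists. -/

namespace Pool.Agent.L7h29.GL

open Cardinal Pool.Agent.L7h3.GL

theorem small_union {L J : Type} {κ : Cardinal.{0}} (hκ : ℵ₀ ≤ κ) (W : Set L) (hW : #W < κ)
    (hJ : #J < κ) (g : J → List L) :
    #(↥(W ∪ ⋃ j, {z | z ∈ g j})) < κ := by
  have h1 : #(↥(⋃ j, {z | z ∈ g j})) < κ := by
    rcases lt_or_ge (#J) ℵ₀ with h | h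
    · have : Finite J := Cardinal.lt_aleph0_iff_finite.1 h
      have hf : (⋃ j, {z | z ∈ g j}).Finite := Set.finite_iUnion fun j => List.finite_toSet (g j)
      exact (Cardinal.lt_aleph0_iff_set_finite.2 hf).trans_le hκ
    · have h2 : #(↥(⋃ j, {z | z ∈ g j})) ≤ #J * ℵ₀ := by
        refine (Cardinal.mk_iUnion_le _).trans ?_
        gcongr
        exact ciSup_le' fun j => (Cardinal.lt_aleph0_iff_set_finite.2 (List.finite_toSet (g j))).le
      rw [Cardinal.mul_aleph0_eq h] at h2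
      exact h2.trans_lt hJ
  exact (Cardinal.mk_union_le _ _).trans_lt (Cardinal.add_lt_of_lt hκ hW h1)

theorem pick {L : Type} {κ : Cardinal.{0}} (U : Set L) (hU : #U < κ) (K : Set (List L))
    (hK : κ ≤ #K) (hd : ∀ l ∈ K, ∀ l' ∈ K, l ≠ l' → List.Disjoint l l') :
    ∃ l ∈ K, ∀ z ∈ l, z ∉ U := by
  by_contra hc
  have hc' : ∀ l : K, ∃ z ∈ l.1, z ∈ U := by
    intro l
    by_contra h
    exact hc ⟨l.1, l.2, fun z hz hzU => h ⟨z, hz, hzU⟩⟩
  choose f hf hfU using hc'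
  have : #K ≤ #U := by
    refine Cardinal.mk_le_of_injective (f := fun l : K => (⟨f l, hfU l⟩ : U)) ?_
    intro l l' h
    by_contra hne
    have hne' : l.1 ≠ l'.1 := fun e => hne (Subtype.ext e)
    have h' : f l = f l' := congrArg Subtype.val h
    exact hd l.1 l.2 l'.1 l'.2 hne' (hf l) (h' ▸ hf l')
  exact absurd (hK.trans this) (not_le.2 hU)

theorem s_GRD : S_GRD := by
  classical
  intro L I W κ K hκ hI hW hK
  obtain ⟨r, hr, hord⟩ := Cardinal.exists_ord_eq (↥I)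
  have hseg : ∀ i : ↥I, #{j : ↥I // r j i} < κ := by
    intro i
    refine lt_of_lt_of_le ?_ hI
    have := Ordinal.typein_lt_type r i
    rw [← hord, Cardinal.lt_ord] at this
    simpa using this
  have step : ∀ (i : ↥I) (g : ∀ j : ↥I, r j i → List L), ∃ l ∈ K i.1, (∀ z ∈ l, z ∉ W) ∧
      ∀ (j : ↥I) (hj : r j i), List.Disjoint (g j hj) l := by
    intro i g
    obtain ⟨l, hl, hlU⟩ := pick _ (small_union hκ W hW (hseg i)
      (fun j : {j : ↥I // r j i} => g j.1 j.2)) (K i.1) (hK i.1 i.2).1 (hK i.1 i.2).2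
    refine ⟨l, hl, fun z hz hzW => hlU z hz (Or.inl hzW), fun j hj z hz hzl => ?_⟩
    exact hlU z hzl (Or.inr (Set.mem_iUnion.2 ⟨⟨j, hj⟩, hz⟩))
  choose F hF1 hF2 hF3 using step
  have wf : WellFounded r := hr.wf
  let f : ↥I → List L := wf.fix F
  have hf : ∀ i, f i = F i (fun j _ => f j) := fun i => wf.fix_eq F i
  refine ⟨fun x => if h : x ∈ I then f ⟨x, h⟩ else [], ?_, ?_⟩
  · intro i hi
    simp only [hi, dif_pos]
    rw [hf]
    exact ⟨hF1 ⟨i, hi⟩ (fun k _ => f k), hF2 ⟨i, hi⟩ (fun k _ => f k)⟩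
  · intro i hi j hj hij
    simp only [hi, hj, dif_pos]
    have hne : (⟨i, hi⟩ : ↥I) ≠ ⟨j, hj⟩ := fun e => hij (congrArg Subtype.val e)
    rcases trichotomous_of r (⟨i, hi⟩ : ↥I) ⟨j, hj⟩ with h | h | h
    · rw [hf ⟨j, hj⟩]
      exact hF3 ⟨j, hj⟩ (fun k _ => f k) ⟨i, hi⟩ h
    · exact absurd h hne
    · rw [hf ⟨i, hi⟩]
      exact (hF3 ⟨i, hi⟩ (fun k _ => f k) ⟨j, hj⟩ h).symm

end Pool.Agent.L7h29.GL
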